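import Mathlib

set_option autoImplicit false

universe u

namespace Pool.Agent.W32.Et

open Polynomial

theorem laur0 (k D : Type u) [Field k] [CommRing D] [IsDomain D] [Algebra k D]
    (S : Subalgebra k D) (z z' : D) (hzz : z * z' = 1)
    (hind : ∀ c : ℕ →₀ D, (∀ i, c i ∈ S) → (c.sum fun i a => a * z ^ i) = 0 → c = 0)
    (hS : Algebra.Smooth k S) :
    Algebra.Smooth k (Algebra.adjoin k ((S : Set D) ∪ {z, z'})) := by
  set B := Algebra.adjoin k ((S : Set D) ∪ {z, z'}) with hB
  have hSB : S ≤ B := fun x hx => Algebra.subset_adjoin (Or.inl hx)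
  have hz : z ∈ B := Algebra.subset_adjoin (Or.inr (Or.inl rfl))
  have hz' : z' ∈ B := Algebra.subset_adjoin (Or.inr (Or.inr rfl))
  letI : Algebra S B := (Subalgebra.inclusion hSB).toRingHom.toAlgebra
  haveI : IsScalarTower k S B := IsScalarTower.of_algebraMap_eq (fun _ => rfl)
  let φ : S[X] →ₐ[S] B := Polynomial.aeval (⟨z, hz⟩ : B)
  letI : Algebra S[X] B := φ.toRingHom.toAlgebra
  have hφC : ∀ s : S, φ (C s) = ⟨s, hSB s.2⟩ := by
    intro s
    show Polynomial.aeval (⟨z, hz⟩ : B) (C s) = _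
    rw [aeval_C]
    rfl
  have hφX : φ X = ⟨z, hz⟩ := aeval_X _
  haveI : IsScalarTower S S[X] B := IsScalarTower.of_algebraMap_eq (fun s => (hφC s).symm)
  haveI : IsScalarTower k S[X] B := by
    refine IsScalarTower.of_algebraMap_eq (fun r => ?_)
    show _ = φ (algebraMap k S[X] r)
    have h1 : algebraMap k S[X] r = C (algebraMap k S r) := rfl
    rw [h1, hφC]
    rfl
  have hval : ∀ P : S[X], ((φ P : B) : D) = ∑ i ∈ P.support, ((P.coeff i : S) : D) * z ^ i := by
    intro P
    show ((Polynomial.aeval (⟨z, hz⟩ : B) P : B) : D) = _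
    rw [aeval_def, eval₂_eq_sum, Polynomial.sum_def]
    rw [← Subalgebra.coe_val, map_sum]
    apply Finset.sum_congr rfl
    intro i _
    rfl
  have hinj : ∀ P : S[X], φ P = 0 → P = 0 := by
    intro P hP
    have h1 := hval P
    rw [hP] at h1
    let c : ℕ →₀ D := Finsupp.onFinset P.support (fun i => ((P.coeff i : S) : D)) (by
      intro i hi
      rw [mem_support_iff]
      intro h
      apply hi
      rw [h]
      rfl)
    have h2 : c = 0 := by
      apply hind c
      · intro i
        exact (P.coeff i).2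
      · show (Finsupp.onFinset _ _ _).sum _ = 0
        rw [Finsupp.onFinset_sum _ (fun a => zero_mul _)]
        exact h1.symm
    ext i
    have h3 := DFunLike.congr_fun h2 i
    exact h3
  have hsurj : ∀ b ∈ B, ∃ (n : ℕ) (P : S[X]), b * z ^ n = ((φ P : B) : D) := by
    intro b hb
    induction hb using Algebra.adjoin_induction with
    | mem x hx =>
      rcases hx with hx | hx | hx
      · exact ⟨0, C ⟨x, hx⟩, by rw [hφC, pow_zero, mul_one]⟩
      · refine ⟨0, X, ?_⟩
        rw [hφX, hx, pow_zero, mul_one]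
      · refine ⟨1, 1, ?_⟩
        have hx' : x = z' := hx
        rw [hx', map_one, pow_one, mul_comm, hzz]
        rfl
    | algebraMap r =>
      refine ⟨0, C (algebraMap k S r), ?_⟩
      rw [hφC, pow_zero, mul_one]
      rfl
    | add x y _ _ hx hy =>
      obtain ⟨n, P, hP⟩ := hx
      obtain ⟨m, Q, hQ⟩ := hy
      refine ⟨n + m, P * X ^ m + Q * X ^ n, ?_⟩
      rw [map_add, map_mul, map_mul, map_pow, map_pow, hφX]
      show (x + y) * z ^ (n + m) = ((φ P : B) : D) * z ^ m + ((φ Q : B) : D) * z ^ n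
      rw [← hP, ← hQ]
      ring
    | mul x y _ _ hx hy =>
      obtain ⟨n, P, hP⟩ := hx
      obtain ⟨m, Q, hQ⟩ := hy
      refine ⟨n + m, P * Q, ?_⟩
      rw [map_mul]
      show (x * y) * z ^ (n + m) = ((φ P : B) : D) * ((φ Q : B) : D)
      rw [← hP, ← hQ]
      ring
  have hloc : IsLocalization.Away (X : S[X]) B := by
    refine ⟨?_, ?_, ?_⟩
    · rintro ⟨_, n, rfl⟩
      show IsUnit (φ (X ^ n))
      rw [map_pow, hφX]
      apply IsUnit.pow
      exact IsUnit.of_mul_eq_one ⟨z', hz'⟩ (Subtype.ext hzz)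
    · rintro ⟨b, hb⟩
      obtain ⟨n, P, hP⟩ := hsurj b hb
      refine ⟨(P, ⟨X ^ n, n, rfl⟩), ?_⟩
      show (⟨b, hb⟩ : B) * φ (X ^ n) = φ P
      rw [map_pow, hφX]
      exact Subtype.ext hP
    · intro P Q hPQ
      refine ⟨1, ?_⟩
      have h1 : φ (P - Q) = 0 := by
        rw [map_sub]
        exact sub_eq_zero.2 hPQ
      rw [sub_eq_zero.1 (hinj _ h1)]
  haveI : Algebra.Smooth S S[X] := ⟨inferInstance, inferInstance⟩
  haveI : Algebra.Smooth k S[X] := Algebra.Smooth.comp k S S[X]
  haveI : Algebra.Smooth S[X] B := Algebra.Smooth.of_isLocalization_Away (X : S[X])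
  exact Algebra.Smooth.comp k S[X] B

end Pool.Agent.W32.Et
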