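import Pool.Agent.W559.Et.Stm
import Pool.Agent.W32.Et.Laur0

/-!
Smoothness of Laurent extensions (subtask ET-LAUR).
-/

set_option autoImplicit false

universe u

namespace Pool.Agent.W32.Et

theorem laur : Pool.Agent.W559.Et.LaurStm.{u} := by
  intro k D _ _ _ _ S z z' h1 h2 h3
  exact laur0 k D S z z' h1 h2 h3

end Pool.Agent.W32.Et
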